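import Mathlib
import Pool.Agent.H.MP_8c175f_gt.C

namespace Pool.Agent.Results.MP_7165d8_gt.Counter

open Pool.Agent.H.MP_8c175f_gt

/-- There is a T1 space which is not Lindelof although the closure, taken in the co-diagonal, of
every discrete subset of the co-diagonal is Lindelof. -/
theorem result : ∃ (X : Type) (_ : TopologicalSpace X), T1Space X ∧
    (∀ D : Set {z : X × X // z.1 ≠ z.2}, DiscreteTopology D → IsLindelof (closure D)) ∧
    ¬ LindelofSpace X := by
  obtain ⟨Λ, _, _, f, lam, hg⟩ := exists_good
  exact ⟨X0 f, inferInstance, inferInstance, codiag hg,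
    fun h => not_lindelof (G := G0) hg (isLindelof_univ_iff.2 h)⟩

end Pool.Agent.Results.MP_7165d8_gt.Counter
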